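import Pool.Agent.Helper64.LN.GoalsA

set_option autoImplicit false

/-! Project LN (MP_2b9d24_gt, phase 2): goal H6. -/

open Set

namespace Pool.Agent.Helper38.LN

open Pool.Agent.Helper64.LN

variable {H : Type} [Group H]

/-- One side of the picture. -/
structure En (y : Set H) (a : H) (Ca : H → Prop) (la : H → ℝ) : Prop where
  sh : ∀ L ∈ y, Ca L → Ca (a * L * a⁻¹) ∧ la (a * L * a⁻¹) = la L + 1
  shi : ∀ L ∈ y, Ca L → Ca (a⁻¹ * L * a) ∧ la (a⁻¹ * L * a) = la L - 1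
  my : ∀ L ∈ y, a * L * a⁻¹ ∈ y
  myi : ∀ L ∈ y, a⁻¹ * L * a ∈ y
  dist : ∀ L ∈ y, ∀ L' ∈ y, Ca L → Ca L' → (la L = la L' ↔ L * L' = L' * L)
  fin : ∃ F : Set H, F.Finite ∧ ∀ L ∈ y, Ca L → ∃ k : ℤ, a ^ k * L * (a ^ k)⁻¹ ∈ F

lemma En.shz {y : Set H} {a : H} {Ca : H → Prop} {la : H → ℝ} (h : En y a Ca la)
    (k : ℤ) (L : H) (hL : L ∈ y) (hc : Ca L) :
    a ^ k * L * (a ^ k)⁻¹ ∈ y ∧ Ca (a ^ k * L * (a ^ k)⁻¹) ∧
      la (a ^ k * L * (a ^ k)⁻¹) = la L + k := by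
  induction k using Int.induction_on with
  | zero => simpa using ⟨hL, hc⟩
  | succ i ih =>
    obtain ⟨h1, h2, h3⟩ := ih
    have e : a ^ ((i : ℤ) + 1) * L * (a ^ ((i : ℤ) + 1))⁻¹ =
        a * (a ^ (i : ℤ) * L * (a ^ (i : ℤ))⁻¹) * a⁻¹ := by
      rw [zpow_add_one, (Commute.zpow_self a (i : ℤ)).eq]
      group
    rw [e]
    refine ⟨h.my _ h1, (h.sh _ h1 h2).1, ?_⟩
    rw [(h.sh _ h1 h2).2, h3]
    push_cast
    ring
  | pred i ih =>
    obtain ⟨h1, h2, h3⟩ := ih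
    have e : a ^ (-(i : ℤ) - 1) * L * (a ^ (-(i : ℤ) - 1))⁻¹ =
        a⁻¹ * (a ^ (-(i : ℤ)) * L * (a ^ (-(i : ℤ)))⁻¹) * a := by
      rw [zpow_sub_one, ((Commute.refl a).zpow_left (-(i : ℤ))).inv_right.eq]
      group
    rw [e]
    refine ⟨h.myi _ h1, (h.shi _ h1 h2).1, ?_⟩
    rw [(h.shi _ h1 h2).2, h3]
    push_cast
    ring

lemma En.ne {y : Set H} {a : H} {Ca : H → Prop} {la : H → ℝ} (h : En y a Ca la)
    (L : H) (hL : L ∈ y) (hc : Ca L) : L ≠ 1 := by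
  rintro rfl
  have := (h.sh _ hL hc).2
  rw [mul_one, mul_inv_cancel] at this
  linarith

lemma En.enum (h5 : GoalH5) {y : Set H} {a : H} {Ca : H → Prop} {la : H → ℝ}
    (h : En y a Ca la) (b : H) (hb : b ∈ y) (hc : Ca b) :
    ∃ (N : ℕ) (e : ℤ → ℝ), 1 ≤ N ∧ StrictMono e ∧ (∀ i, ∃ L ∈ y, Ca L ∧ la L = e i) ∧
      (∀ L ∈ y, Ca L → ∃ i, la L = e i) ∧ ∀ i, e (i + N) = e i + 1 := by
  obtain ⟨F, hF, hF2⟩ := h.fin
  obtain ⟨N, e, h1, h2, h3, h4⟩ := h5 {x | ∃ L ∈ y, Ca L ∧ la L = x} ⟨la b, b, hb, hc, rfl⟩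
    (by
      intro x
      constructor
      · rintro ⟨L, hL, hcL, rfl⟩
        exact ⟨_, h.my L hL, (h.sh L hL hcL).1, (h.sh L hL hcL).2⟩
      · rintro ⟨L, hL, hcL, hx⟩
        refine ⟨_, h.myi L hL, (h.shi L hL hcL).1, ?_⟩
        rw [(h.shi L hL hcL).2, hx]
        ring)
    (by
      have hfin : (⋃ f ∈ F, (fun k : ℤ => la f - k) '' (Set.Icc ⌊la f - 1⌋ ⌈la f⌉)).Finite :=
        hF.biUnion (fun f _ => (Set.finite_Icc _ _).image _)
      refine hfin.subset ?_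
      rintro x ⟨⟨L, hL, hcL, rfl⟩, hx0, hx1⟩
      obtain ⟨k, hk⟩ := hF2 L hL hcL
      have h6 := (h.shz k L hL hcL).2.2
      refine Set.mem_biUnion hk ⟨k, ⟨?_, ?_⟩, ?_⟩
      · have : (⌊la (a ^ k * L * (a ^ k)⁻¹) - 1⌋ : ℤ) ≤ ⌊(k : ℝ)⌋ :=
          Int.floor_le_floor (by rw [h6]; linarith)
        simpa using this
      · have : ⌈(k : ℝ)⌉ ≤ (⌈la (a ^ k * L * (a ^ k)⁻¹)⌉ : ℤ) :=
          Int.ceil_le_ceil (by rw [h6]; linarith)
        simpa using this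
      · simp only [h6]
        ring)
  refine ⟨N, e, h1, h2, fun i => ?_, fun L hL hcL => ?_, h4⟩
  · have : e i ∈ Set.range e := ⟨i, rfl⟩
    rw [h3] at this
    exact this
  · have : la L ∈ Set.range e := by
      rw [h3]
      exact ⟨L, hL, hcL, rfl⟩
    obtain ⟨i, hi⟩ := this
    exact ⟨i, hi.symm⟩

lemma btw_lt {p x q : ℝ} (h : (p - x) * (q - x) < 0) (hpq : p < q) : p < x ∧ x < q := by
  rcases mul_neg_iff.1 h with ⟨h1, h2⟩ | ⟨h1, h2⟩
  · constructor <;> linarith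
  · constructor <;> linarith

lemma btw_mk {p x q : ℝ} (h1 : p < x) (h2 : x < q) : (p - x) * (q - x) < 0 :=
  mul_neg_of_neg_of_pos (by linarith) (by linarith)

lemma conj_comm {g x z : H} (h : x * z = z * x) :
    (g * x * g⁻¹) * (g * z * g⁻¹) = (g * z * g⁻¹) * (g * x * g⁻¹) := by
  have e1 : (g * x * g⁻¹) * (g * z * g⁻¹) = g * (x * z) * g⁻¹ := by group
  have e2 : (g * z * g⁻¹) * (g * x * g⁻¹) = g * (z * x) * g⁻¹ := by group
  rw [e1, e2, h]

/-- The main argument. -/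
lemma main (h5 : GoalH5) (D : Subgroup H)
    (trans : ∀ a ∈ D, ∀ b ∈ D, ∀ c ∈ D, b ≠ 1 → a * b = b * a → b * c = c * b → a * c = c * a)
    (norm : ∀ g ∈ D, ∀ a ∈ D, a ≠ 1 → (g * a * g⁻¹) * a = a * (g * a * g⁻¹) → g * a = a * g)
    (y : Set H) (hyD : ∀ L ∈ y, L ∈ D) (a c : H) (haD : a ∈ D) (hcD : c ∈ D)
    (Ca Cc : H → Prop) (la lc : H → ℝ) (ha : En y a Ca la) (hc : En y c Cc lc)
    (kac : ∀ P ∈ y, ∀ Q ∈ y, ∀ L ∈ y, Ca P → Cc P → Ca Q → Cc Q → Ca L →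
      (la P - la L) * (la Q - la L) < 0 → Cc L ∧ (lc P - lc L) * (lc Q - lc L) < 0)
    (kca : ∀ P ∈ y, ∀ Q ∈ y, ∀ L ∈ y, Ca P → Cc P → Ca Q → Cc Q → Cc L →
      (lc P - lc L) * (lc Q - lc L) < 0 → Ca L ∧ (la P - la L) * (la Q - la L) < 0)
    (b b3 : H) (hb : b ∈ y) (hba : Ca b) (hbc : Cc b) (hb3 : b3 ∈ y) (hb3a : Ca b3)
    (hb3c : Cc b3) (h3 : la b3 = la b + 3) (h6 : lc b + 6 ≤ lc b3) : a * c = c * a := by
  obtain ⟨Na, ea, hNa, ema, ea1, ea2, ea3⟩ := ha.enum h5 b hb hba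
  obtain ⟨Nc, ec, hNc, emc, ec1, ec2, ec3⟩ := hc.enum h5 b hb hbc
  obtain ⟨i0, hi0⟩ := ea2 b hb hba
  obtain ⟨j0, hj0⟩ := ec2 b hb hbc
  have ea3' : ∀ i : ℤ, ∀ n : ℕ, ea (i + n * Na) = ea i + n := by
    intro i n
    induction n with
    | zero => simp
    | succ n ih =>
      have : i + ((n + 1 : ℕ) : ℤ) * (Na : ℤ) = (i + n * Na) + Na := by
        push_cast
        ring
      rw [this, ea3, ih]
      push_cast
      ring
  have ec3' : ∀ i : ℤ, ∀ n : ℕ, ec (i + n * Nc) = ec i + n := by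
    intro i n
    induction n with
    | zero => simp
    | succ n ih =>
      have : i + ((n + 1 : ℕ) : ℤ) * (Nc : ℤ) = (i + n * Nc) + Nc := by
        push_cast
        ring
      rw [this, ec3, ih]
      push_cast
      ring
  -- index of b3
  have hb3i : la b3 = ea (i0 + 3 * Na) := by
    have := ea3' i0 3
    push_cast at this
    rw [this, h3, hi0]
  have key : ∀ i : ℕ, i ≤ 3 * Na → ∃ L ∈ y, Ca L ∧ Cc L ∧ la L = ea (i0 + i) ∧
      lc L = ec (j0 + i) := by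
    intro i
    induction i with
    | zero =>
      intro _
      exact ⟨b, hb, hba, hbc, by simpa using hi0, by simpa using hj0⟩
    | succ i ih =>
      intro hi
      obtain ⟨L, hLy, hLa, hLc, hL1, hL2⟩ := ih (by omega)
      -- the next line
      have hnext : ∃ L' ∈ y, Ca L' ∧ Cc L' ∧ la L' = ea (i0 + (i + 1 : ℕ)) ∧ lc b < lc L' := by
        rcases Nat.lt_or_ge (i + 1) (3 * Na) with h7 | h7
        · obtain ⟨L', h8, h9, h10⟩ := ea1 (i0 + (i + 1 : ℕ))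
          have h11 : la b < la L' := by
            rw [h10, hi0]
            exact ema (by push_cast; omega)
          have h12 : la L' < la b3 := by
            rw [h10, hb3i]
            exact ema (by push_cast; omega)
          obtain ⟨h13, h14⟩ := kac b hb b3 hb3 L' h8 hba hbc hb3a hb3c h9 (btw_mk h11 h12)
          exact ⟨L', h8, h9, h13, h10, (btw_lt h14 (by linarith)).1⟩
        · refine ⟨b3, hb3, hb3a, hb3c, ?_, by linarith⟩
          rw [hb3i]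
          congr 1
          push_cast
          omega
      obtain ⟨L', hL'y, hL'a, hL'c, hL'1, hL'2⟩ := hnext
      have hlt : lc L < lc L' := by
        rcases Nat.eq_zero_or_pos i with h7 | h7
        · subst h7
          rw [hL2]
          simpa [← hj0] using hL'2
        · have h11 : la b < la L := by
            rw [hL1, hi0]
            exact ema (by omega)
          have h12 : la L < la L' := by
            rw [hL1, hL'1]
            exact ema (by push_cast; omega)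
          obtain ⟨_, h14⟩ := kac b hb L' hL'y L hLy hba hbc hL'a hL'c hLa (btw_mk h11 h12)
          exact (btw_lt h14 hL'2).2
      refine ⟨L', hL'y, hL'a, hL'c, hL'1, ?_⟩
      obtain ⟨j, hj⟩ := ec2 L' hL'y hL'c
      have hjlt : j0 + i < j := by
        rw [hL2, hj] at hlt
        exact emc.lt_iff_lt.1 hlt
      rcases Int.lt_or_le (j0 + (i : ℤ) + 1) j with h8 | h8
      · exfalso
        obtain ⟨M, hMy, hMc, hM⟩ := ec1 (j0 + (i : ℤ) + 1)
        have h9 : lc L < lc M := by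
          rw [hL2, hM]
          exact emc (by omega)
        have h10 : lc M < lc L' := by
          rw [hM, hj]
          exact emc h8
        obtain ⟨h11, h12⟩ := kca L hLy L' hL'y M hMy hLa hLc hL'a hL'c hMc (btw_mk h9 h10)
        have h13 : la L < la L' := by
          rw [hL1, hL'1]
          exact ema (by push_cast; omega)
        obtain ⟨h14, h15⟩ := btw_lt h12 h13
        obtain ⟨k, hk⟩ := ea2 M hMy h11
        rw [hL1, hk] at h14
        rw [hL'1, hk] at h15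
        have h16 := ema.lt_iff_lt.1 h14
        have h17 := ema.lt_iff_lt.1 h15
        push_cast at h17
        omega
      · have : j = j0 + (i + 1 : ℕ) := by
          push_cast
          omega
        rw [hj, this]
  -- period comparison
  have hper : 2 * Nc ≤ Na := by
    obtain ⟨L, hLy, hLa, hLc, hL1, hL2⟩ := key (3 * Na) le_rfl
    have h7 : la L = la b3 := by
      rw [hL1, hb3i]
      push_cast
      rfl
    have h8 : lc L = lc b3 :=
      (hc.dist L hLy b3 hb3 hLc hb3c).2 ((ha.dist L hLy b3 hb3 hLa hb3a).1 h7)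
    have h9 := ec3' j0 6
    have h10 : ec (j0 + (6 : ℕ) * Nc) ≤ ec (j0 + (3 * Na : ℕ)) := by
      rw [h9, ← hj0, ← hL2, h8]
      push_cast
      linarith
    have h11 := emc.le_iff_le.1 h10
    push_cast at h11
    omega
  have comm : ∀ i : ℕ, i ≤ 1 → ∃ L ∈ y, Ca L ∧ la L = ea (i0 + i) ∧
      ((c * a)⁻¹ * (a * c)) * L = L * ((c * a)⁻¹ * (a * c)) := by
    intro i hi
    obtain ⟨L, hLy, hLa, hLc, hL1, hL2⟩ := key i (by omega)
    obtain ⟨X, hXy, hXa, hXc, hX1, hX2⟩ := key (i + Nc) (by omega)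
    obtain ⟨W, hWy, hWa, hWc, hW1, hW2⟩ := key (i + Na) (by omega)
    obtain ⟨Z, hZy, hZa, hZc, hZ1, hZ2⟩ := key (i + Nc + Na) (by omega)
    refine ⟨L, hLy, hLa, hL1, ?_⟩
    have hLD := hyD L hLy
    have hXD := hyD X hXy
    have hWD := hyD W hWy
    have hZD := hyD Z hZy
    -- c L c⁻¹ commutes with X
    have s1 : (c * L * c⁻¹) * X = X * (c * L * c⁻¹) := by
      refine (hc.dist _ (hc.my L hLy) X hXy (hc.sh L hLy hLc).1 hXc).1 ?_
      rw [(hc.sh L hLy hLc).2, hL2, hX2, ← ec3]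
      congr 1
      push_cast
      ring
    have s2 : (a * L * a⁻¹) * W = W * (a * L * a⁻¹) := by
      refine (ha.dist _ (ha.my L hLy) W hWy (ha.sh L hLy hLa).1 hWa).1 ?_
      rw [(ha.sh L hLy hLa).2, hL1, hW1, ← ea3]
      congr 1
      push_cast
      ring
    have s3 : (a * X * a⁻¹) * Z = Z * (a * X * a⁻¹) := by
      refine (ha.dist _ (ha.my X hXy) Z hZy (ha.sh X hXy hXa).1 hZa).1 ?_
      rw [(ha.sh X hXy hXa).2, hX1, hZ1, ← ea3]
      congr 1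
      push_cast
      ring
    have s4 : (c * W * c⁻¹) * Z = Z * (c * W * c⁻¹) := by
      refine (hc.dist _ (hc.my W hWy) Z hZy (hc.sh W hWy hWc).1 hZc).1 ?_
      rw [(hc.sh W hWy hWc).2, hW2, hZ2, ← ec3]
      congr 1
      push_cast
      ring
    have mD : ∀ g ∈ D, ∀ x ∈ D, g * x * g⁻¹ ∈ D := fun g hg x hx =>
      D.mul_mem (D.mul_mem hg hx) (D.inv_mem hg)
    have t1 : (a * (c * L * c⁻¹) * a⁻¹) * Z = Z * (a * (c * L * c⁻¹) * a⁻¹) :=
      trans _ (mD a haD _ (mD c hcD L hLD)) _ (mD a haD X hXD) Z hZD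
        (ha.ne _ (ha.my X hXy) (ha.sh X hXy hXa).1) (conj_comm s1) s3
    have t2 : (c * (a * L * a⁻¹) * c⁻¹) * Z = Z * (c * (a * L * a⁻¹) * c⁻¹) :=
      trans _ (mD c hcD _ (mD a haD L hLD)) _ (mD c hcD W hWD) Z hZD
        (hc.ne _ (hc.my W hWy) (hc.sh W hWy hWc).1) (conj_comm s2) s4
    have t3 := trans _ (mD a haD _ (mD c hcD L hLD)) Z hZD _ (mD c hcD _ (mD a haD L hLD))
      (ha.ne Z hZy hZa) t1 t2.symm
    have t4 := conj_comm (g := (c * a)⁻¹) t3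
    have e1 : (c * a)⁻¹ * (a * (c * L * c⁻¹) * a⁻¹) * ((c * a)⁻¹)⁻¹ =
        ((c * a)⁻¹ * (a * c)) * L * ((c * a)⁻¹ * (a * c))⁻¹ := by group
    have e2 : (c * a)⁻¹ * (c * (a * L * a⁻¹) * c⁻¹) * ((c * a)⁻¹)⁻¹ = L := by group
    rw [e1, e2] at t4
    exact norm _ (D.mul_mem (D.inv_mem (D.mul_mem hcD haD)) (D.mul_mem haD hcD)) L hLD
      (ha.ne L hLy hLa) t4
  obtain ⟨L0, h0y, h0a, h01, h02⟩ := comm 0 (by omega)
  obtain ⟨L1, h1y, h1a, h11, h12⟩ := comm 1 le_rfl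
  by_contra hne
  have hg : (c * a)⁻¹ * (a * c) ≠ 1 := by
    intro h
    exact hne (inv_mul_eq_one.1 h).symm
  have h13 := trans L0 (hyD L0 h0y) _
    (D.mul_mem (D.inv_mem (D.mul_mem hcD haD)) (D.mul_mem haD hcD)) L1 (hyD L1 h1y) hg h02.symm h12
  have h14 := (ha.dist L0 h0y L1 h1y h0a h1a).2 h13
  rw [h01, h11] at h14
  have h15 := ema.injective h14
  push_cast at h15
  omega

variable {D : Subgroup H} {Sp : H → H → H → Prop} {l r : H → H → ℝ} {sd : H → H → Prop}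
  {Y : Set (Set H)}

lemma cr_conj (hG : Geo D Sp l r sd) {g a b : H} (hg : g ∈ D) (h : Cr Sp a b) :
    Cr Sp (g * a * g⁻¹) (g * b * g⁻¹) := by
  have h1 := hG.conj g hg a b b⁻¹ h
  have e : (g * b * g⁻¹)⁻¹ = g * b⁻¹ * g⁻¹ := by group
  rw [Cr, e]
  exact h1

lemma cr_sh (hG : Geo D Sp l r sd) {a b : H} (ha : a ∈ D) (h : Cr Sp a b) :
    Cr Sp a (a * b * a⁻¹) := by
  have h1 := cr_conj hG ha h
  rwa [mul_inv_cancel_right] at h1

lemma cr_shi (hG : Geo D Sp l r sd) {a b : H} (ha : a ∈ D) (h : Cr Sp a b) :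
    Cr Sp a (a⁻¹ * b * a) := by
  have h1 := cr_conj hG (D.inv_mem ha) h
  have e1 : a⁻¹ * a * a⁻¹⁻¹ = a := by group
  have e2 : a⁻¹ * b * a⁻¹⁻¹ = a⁻¹ * b * a := by group
  rwa [e1, e2] at h1

lemma l_shi (hG : Geo D Sp l r sd) {a b : H} (ha : a ∈ D) (hb : b ∈ D) (h : Cr Sp a b) :
    l a (a⁻¹ * b * a) = l a b - 1 := by
  have h1 := (hG.shift a ha (a⁻¹ * b * a) (D.mul_mem (D.mul_mem (D.inv_mem ha) hb) ha)
    (cr_shi hG ha h)).1
  have e1 : a * (a⁻¹ * b * a) * a⁻¹ = b := by group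
  rw [e1] at h1
  linarith

lemma fin_a (hG : Geo D Sp l r sd) (hY : Fam D Sp Y) {y : Set H} (hy : y ∈ Y) {a : H}
    (ha : a ∈ D) : ∃ F : Set H, F.Finite ∧ ∀ L ∈ y, Cr Sp a L →
      ∃ k : ℤ, a ^ k * L * (a ^ k)⁻¹ ∈ F := by
  obtain ⟨b, hb⟩ := hY.ne y hy
  obtain ⟨F1, h1, h2⟩ := hG.lfin a ha b (hY.sub y hy b hb)
  obtain ⟨F2, h3, h4⟩ := hG.lfin a ha b⁻¹ (D.inv_mem (hY.sub y hy b hb))
  refine ⟨F1 ∪ F2, h1.union h3, fun L hL hc => ?_⟩
  obtain ⟨g, hg, rfl | rfl⟩ := hY.cls y hy b hb L hL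
  · obtain ⟨k, hk⟩ := h2 g hg hc
    exact ⟨k, Or.inl hk⟩
  · obtain ⟨k, hk⟩ := h4 g hg hc
    exact ⟨k, Or.inr hk⟩

lemma en_a (hG : Geo D Sp l r sd) (hY : Fam D Sp Y) {y : Set H} (hy : y ∈ Y) {a : H}
    (ha : a ∈ D) : En y a (Cr Sp a) (l a) where
  sh L hL hc := ⟨cr_sh hG ha hc, (hG.shift a ha L (hY.sub y hy L hL) hc).1⟩
  shi L hL hc := ⟨cr_shi hG ha hc, l_shi hG ha (hY.sub y hy L hL) hc⟩
  my L hL := hY.conj y hy L hL a ha
  myi L hL := by
    have := hY.conj y hy L hL a⁻¹ (D.inv_mem ha)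
    rwa [inv_inv] at this
  dist L hL L' hL' hc hc' :=
    ⟨fun h => hG.dist a ha L (hY.sub y hy L hL) L' (hY.sub y hy L' hL') hc hc' (Or.inl h),
      fun h => (hG.distc a ha L (hY.sub y hy L hL) L' (hY.sub y hy L' hL') hc hc' h).1⟩
  fin := fin_a hG hY hy ha

lemma en_neg (hG : Geo D Sp l r sd) (hY : Fam D Sp Y) {y : Set H} (hy : y ∈ Y) {a : H}
    (ha : a ∈ D) : En y a⁻¹ (Cr Sp a) (fun L => -(l a L)) where
  sh L hL hc := by
    rw [inv_inv]
    refine ⟨cr_shi hG ha hc, ?_⟩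
    rw [l_shi hG ha (hY.sub y hy L hL) hc]
    ring
  shi L hL hc := by
    rw [inv_inv]
    refine ⟨cr_sh hG ha hc, ?_⟩
    rw [(hG.shift a ha L (hY.sub y hy L hL) hc).1]
    ring
  my L hL := hY.conj y hy L hL a⁻¹ (D.inv_mem ha)
  myi L hL := by
    rw [inv_inv]
    exact hY.conj y hy L hL a ha
  dist L hL L' hL' hc hc' := by
    simp only [neg_inj]
    exact (en_a hG hY hy ha).dist L hL L' hL' hc hc'
  fin := by
    obtain ⟨F, h1, h2⟩ := fin_a hG hY hy ha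
    refine ⟨F, h1, fun L hL hc => ?_⟩
    obtain ⟨k, hk⟩ := h2 L hL hc
    refine ⟨-k, ?_⟩
    rwa [inv_zpow', neg_neg]

/-- Lines between two lines crossing both `a` and `c`. -/
lemma kk (hG : Geo D Sp l r sd) (hY : Fam D Sp Y) {y : Set H} (hy : y ∈ Y) {a c : H}
    (ha : a ∈ D) (hc : c ∈ D) (hac : Cr Sp a c) :
    ∀ P ∈ y, ∀ Q ∈ y, ∀ L ∈ y, Cr Sp a P → Cr Sp c P → Cr Sp a Q → Cr Sp c Q → Cr Sp a L →
      (l a P - l a L) * (l a Q - l a L) < 0 →
      Cr Sp c L ∧ (l c P - l c L) * (l c Q - l c L) < 0 := by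
  have key : ∀ P ∈ y, ∀ Q ∈ y, ∀ L ∈ y, Cr Sp a P → Cr Sp c P → Cr Sp a Q → Cr Sp c Q →
      Cr Sp a L → l a P < l a L → l a L < l a Q → Cr Sp c L := by
    intro P hP Q hQ L hL haP hcP haQ hcQ haL h1 h2
    have dP := hY.sub y hy P hP
    have dQ := hY.sub y hy Q hQ
    have dL := hY.sub y hy L hL
    have mono : ∀ A ∈ y, ∀ B ∈ y, Cr Sp a A → Cr Sp a B → l a A < l a B → r a A < r a B := by
      intro A hA B hB cA cB hlt
      have dA := hY.sub y hy A hA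
      have dB := hY.sub y hy B hB
      have h3 : ¬ (l a A - l a B) * (r a A - r a B) < 0 := fun h =>
        hY.simple y hy A hA B hB ((hG.cross a ha A dA B dB cA cB).2 h)
      have h4 : r a A ≠ r a B := fun h => by
        have h5 := (hG.distc a ha A dA B dB cA cB
          (hG.dist a ha A dA B dB cA cB (Or.inr h))).1
        linarith
      by_contra h5
      have h6 : r a B < r a A := lt_of_le_of_ne (not_lt.1 h5) (Ne.symm h4)
      exact h3 (mul_neg_of_neg_of_pos (by linarith) (by linarith))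
    have r1 := mono P hP L hL haP haL h1
    have r2 := mono L hL Q hQ haL haQ h2
    have c1 := (hG.cross a ha P dP c hc haP hac).1 (hG.symm c hc P dP hcP)
    have c2 := (hG.cross a ha Q dQ c hc haQ hac).1 (hG.symm c hc Q dQ hcQ)
    refine hG.symm L dL c hc ((hG.cross a ha L dL c hc haL hac).2 ?_)
    rcases mul_neg_iff.1 c1 with ⟨h3, h4⟩ | ⟨h3, h4⟩
    · rcases mul_neg_iff.1 c2 with ⟨h5, h6⟩ | ⟨h5, h6⟩
      · exact mul_neg_of_pos_of_neg (by linarith) (by linarith)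
      · exact absurd h5 (by linarith)
    · rcases mul_neg_iff.1 c2 with ⟨h5, h6⟩ | ⟨h5, h6⟩
      · exact absurd h6 (by linarith)
      · exact mul_neg_of_neg_of_pos (by linarith) (by linarith)
  intro P hP Q hQ L hL haP hcP haQ hcQ haL h1
  have dP := hY.sub y hy P hP
  have dQ := hY.sub y hy Q hQ
  have dL := hY.sub y hy L hL
  have hcL : Cr Sp c L := by
    rcases mul_neg_iff.1 h1 with ⟨h2, h3⟩ | ⟨h2, h3⟩
    · exact key Q hQ P hP L hL haQ hcQ haP hcP haL (by linarith) (by linarith)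
    · exact key P hP Q hQ L hL haP hcP haQ hcQ haL (by linarith) (by linarith)
  refine ⟨hcL, ?_⟩
  have n1 : Nc L P := fun h => by
    have := (hG.distc a ha L dL P dP haL haP h).1
    rw [this] at h1
    simp at h1
  have n2 : Nc L Q := fun h => by
    have := (hG.distc a ha L dL Q dQ haL haQ h).1
    rw [this] at h1
    simp at h1
  have s1 := hY.simple y hy L hL P hP
  have s2 := hY.simple y hy L hL Q hQ
  exact (hG.btw c hc P dP Q dQ L dL hcP hcQ hcL s1 s2 n1 n2).1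
    ((hG.btw a ha P dP Q dQ L dL haP haQ haL s1 s2 n1 n2).2 h1)

theorem goalH6 (h5 : GoalH5) : GoalH6 := by
  intro H _ D Sp l r sd Y hG hY y hy a ha c hc b hb hac hab hcb hcb3
  by_contra hlt
  rw [not_lt] at hlt
  have hca := hG.symm a ha c hc hac
  have e3 : (a ^ 3 : H) = a ^ (3 : ℤ) := by norm_cast
  have hb3 := (en_a hG hY hy ha).shz 3 b hb hab
  rw [← e3] at hb3
  obtain ⟨b3y, b3a, b3l⟩ := hb3
  have k1 := kk hG hY hy ha hc hac
  have k2 := kk hG hY hy hc ha hca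
  rcases le_abs'.1 hlt with h | h
  · -- decreasing
    have h1 := main h5 D hG.trans hG.norm y (hY.sub y hy) a c⁻¹ ha (D.inv_mem hc) (Cr Sp a)
      (Cr Sp c) (l a) (fun L => -(l c L)) (en_a hG hY hy ha) (en_neg hG hY hy hc)
      (fun P hP Q hQ L hL h1 h2 h3 h4 h5 h6 => by
        obtain ⟨h7, h8⟩ := k1 P hP Q hQ L hL h1 h2 h3 h4 h5 h6
        refine ⟨h7, ?_⟩
        linarith)
      (fun P hP Q hQ L hL h1 h2 h3 h4 h5 h6 => by
        refine k2 P hP Q hQ L hL h2 h1 h4 h3 h5 ?_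
        have h6 : (-(l c P) - -(l c L)) * (-(l c Q) - -(l c L)) < 0 := h6
        linarith)
      b (a ^ 3 * b * (a ^ 3)⁻¹) hb hab hcb b3y b3a hcb3 (by rw [b3l]; norm_num)
      (by linarith)
    exact hG.comm a ha c hc hac ((Commute.inv_right_iff (a := a) (b := c)).1 h1)
  · have h1 := main h5 D hG.trans hG.norm y (hY.sub y hy) a c ha hc (Cr Sp a)
      (Cr Sp c) (l a) (l c) (en_a hG hY hy ha) (en_a hG hY hy hc)
      (fun P hP Q hQ L hL h1 h2 h3 h4 h5 h6 => k1 P hP Q hQ L hL h1 h2 h3 h4 h5 h6)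
      (fun P hP Q hQ L hL h1 h2 h3 h4 h5 h6 => k2 P hP Q hQ L hL h2 h1 h4 h3 h5 h6)
      b (a ^ 3 * b * (a ^ 3)⁻¹) hb hab hcb b3y b3a hcb3 (by rw [b3l]; norm_num)
      (by linarith)
    exact hG.comm a ha c hc hac h1

end Pool.Agent.Helper38.LN
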